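import Pool.Agent.V11128.CXL.I
import Pool.Agent.V1167.PP.Nat

/-!
# MP_56b8f5_nt: means of order eight of all homogeneous functions of shifted values of ζ

Let `δ(T) → 0` and `δ(T) log T → ∞`, and let `S` be a countable set of shifts. Off sets
`E(T) ⊆ [0, T]` of measure `o(δ^8 T)`, at each point of which `|ζ(1/2 + δ + i(t + xδ))| > δ^(-3)` for
some `x ∈ S ∪ {0}`, the following is true for all `a_1, ..., a_n ∈ S` and for all continuous real functions
`Φ` on `ℂ^n` with `Φ(λz) = |λ|^8 Φ(z)` for all complex `λ`: the mean over `t` of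
`Φ(ζ(1/2 + δ + i(t + a_1 δ)), ..., ζ(1/2 + δ + i(t + a_n δ)))` is asymptotic to
`a_4 (2δ)^(-16) E Φ(exp z_1, ..., exp z_n)`, where `z` is the circular complex normal vector with means
`-4 ℓ(a_j)` and covariances `ℓ(a_j) + ℓ(-a_i) - ℓ(a_j - a_i)`, `ℓ(x) = log (1 + ix/2)`.

Examples: the eighth moments of all linear combinations of shifted values (in particular of
increments), of the maximum of `|ζ|` over several points, real powers `∏ |ζ(s_j)|^(κ_j)`, `∑ κ_j = 8`,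
and moments of real order `8/p` of the local moments `∑ |ζ(s_j)|^p`.

This is the case of order eight of a theorem for all orders (`Pool.Agent.V11128.CXL.homog_small`), handed
in at another problem.
-/

set_option autoImplicit false

namespace Pool.Agent.Results.MP_56b8f5_nt.EighthMomentLandscape

open Filter MeasureTheory Topology ProbabilityTheory

/-- The arithmetic factor `a_4 = ∏_p (1 - 1/p)^16 ∑_m C(m + 3, m)² p^(-m)`. -/
noncomputable def a4 : ℝ :=
  ∏' p : Nat.Primes, ((1 - 1 / (p : ℝ)) ^ 16 * ∑' m : ℕ, ((m + 3).choose m : ℝ) ^ 2 * (1 / (p : ℝ)) ^ m)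

/-- `ζ(1/2 + δ + i(t + xδ))`. -/
noncomputable def Z (δ x t : ℝ) : ℂ :=
  riemannZeta (1 / 2 + δ + ((t + x * δ : ℝ) : ℂ) * Complex.I)

/-- `Φ(λz) = |λ|^8 Φ(z)` for all complex `λ`. -/
def IsHomEight {n : ℕ} (Φ : (Fin n → ℂ) → ℝ) : Prop :=
  ∀ (l : ℂ) (z : Fin n → ℂ), Φ (fun j => l * z j) = ‖l‖ ^ 8 * Φ z

/-- `ℓ(x) = log (1 + ix/2)`, principal determination. -/
noncomputable def ell (x : ℝ) : ℂ := Complex.log (1 + Complex.I * (x : ℂ) / 2)

/-- The means `-4 ℓ(a_j)` of the limit law. -/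
noncomputable def mean {n : ℕ} (a : Fin n → ℝ) (j : Fin n) : ℂ := -4 * ell (a j)

/-- The covariances `E (z_j - m_j) conj (z_i - m_i)` of the limit law. -/
noncomputable def cov {n : ℕ} (a : Fin n → ℝ) (j i : Fin n) : ℂ :=
  ell (a j) + ell (-a i) - ell (a j - a i)

/-- `ρ` is the circular complex normal law on `ℂ^n` with mean `m` and covariance matrix `K`: for each
`c ∈ ℂ^n`, the real part of `∑ c_j z_j` has the normal law with mean `Re ∑ c_j m_j` and variance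
`(1/2) Re ∑ c_j conj(c_i) K_ji ≥ 0`. -/
def IsCNormal {n : ℕ} (m : Fin n → ℂ) (K : Fin n → Fin n → ℂ) (ρ : ProbabilityMeasure (Fin n → ℂ)) :
    Prop :=
  ∀ c : Fin n → ℂ, 0 ≤ (∑ j, ∑ i, c j * (starRingEnd ℂ) (c i) * K j i).re / 2 ∧
    (ρ : Measure (Fin n → ℂ)).map (fun z => (∑ j, c j * z j).re) =
      gaussianReal (∑ j, c j * m j).re ((∑ j, ∑ i, c j * (starRingEnd ℂ) (c i) * K j i).re / 2).toNNReal

lemma a4_eq : a4 = Pool.Agent.H306R2.aF 4 := by
  have h := Pool.Agent.V1167.PP.aF_nat 4 (by norm_num)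
  have h2 : Pool.Agent.H306R2.aF ((4 : ℕ) : ℝ) = Pool.Agent.H306R2.aF 4 := by norm_num
  rw [← h2, h]
  unfold a4
  refine tprod_congr fun p => ?_
  have e1 : (4 : ℕ) ^ 2 = 16 := by norm_num
  rw [e1]
  rfl

/-- Let `δ(T) → 0` and `δ(T) log T → ∞`, and let `S` be a countable set of shifts. There are sets
`E(T) ⊆ [0, T]` of measure `o(T δ^8)`, at each point of which `|ζ(1/2 + δ + i(t + xδ))| > δ^(-3)` for
some `x ∈ S ∪ {0}`, such that for all `a_1, ..., a_n ∈ S`, with the circular complex normal law `ρ` of mean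
`-4 ℓ(a_j)` and covariance `ℓ(a_j) + ℓ(-a_i) - ℓ(a_j - a_i)`: for all continuous `Φ` with
`Φ(λz) = |λ|^8 Φ(z)`, the function `Φ(exp z_1, ..., exp z_n)` is `ρ`-integrable and

`(2δ)^16 (1/T) ∫_{[0,T] \ E(T)} Φ(ζ(1/2 + δ + i(t + a_1 δ)), ..., ζ(1/2 + δ + i(t + a_n δ))) dt`
`→ a_4 ∫ Φ(exp z_1, ..., exp z_n) dρ(z)`. -/
theorem result (δ : ℝ → ℝ) (hδ : Tendsto δ atTop (𝓝 0))
    (hδL : Tendsto (fun T : ℝ => δ T * Real.log T) atTop atTop) (S : Set ℝ) (hS : S.Countable) :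
    0 < a4 ∧ ∃ E : ℝ → Set ℝ,
      (∀ T, MeasurableSet (E T) ∧ E T ⊆ Set.Icc 0 T ∧ ∀ t ∈ E T, ∃ x ∈ insert 0 S,
        (δ T) ^ (-3 : ℝ) < ‖Z (δ T) x t‖) ∧
      Tendsto (fun T => (volume (E T)).toReal / (T * (δ T) ^ 8)) atTop (𝓝 0) ∧
      ∀ (n : ℕ) (a : Fin n → ℝ), (∀ j, a j ∈ S) →
        ∃ ρ : ProbabilityMeasure (Fin n → ℂ), IsCNormal (mean a) (cov a) ρ ∧
          ∀ Φ : (Fin n → ℂ) → ℝ, Continuous Φ → IsHomEight Φ →
            Integrable (fun z => Φ (fun j => Complex.exp (z j))) (ρ : Measure (Fin n → ℂ)) ∧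
            Tendsto (fun T : ℝ => (2 * δ T) ^ 16 / T *
              ∫ t in Set.Icc 0 T \ E T, Φ (fun j => Z (δ T) (a j) t)) atTop
              (𝓝 (a4 * ∫ z, Φ (fun j => Complex.exp (z j)) ∂(ρ : Measure (Fin n → ℂ)))) := by
  obtain ⟨E, hE, hvol, hm⟩ := Pool.Agent.V11128.CXL.homog_small hδ hδL (c := 1) (by norm_num) hS
    (Set.countable_singleton (8 : ℝ)) (fun β hβ => by rw [Set.mem_singleton_iff.1 hβ]; norm_num)
  have e1 : (4 + 4 * 1 : ℝ) = ((8 : ℕ) : ℝ) := by norm_num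
  have e2 : (-(2 + 1) : ℝ) = (-3 : ℝ) := by norm_num
  rw [e1] at hvol
  simp_rw [Real.rpow_natCast] at hvol
  refine ⟨?_, E, fun T => ⟨(hE T).1, (hE T).2.1, fun t ht => ?_⟩, hvol, fun n a ha => ?_⟩
  · rw [a4_eq]
    exact Pool.Agent.H306R2.aF_pos (by norm_num)
  · rw [← e2]
    exact (hE T).2.2 t ht
  · obtain ⟨ρ, hρ, hF⟩ := hm 8 rfl (Or.inr (by norm_num)) n a ha
    obtain ⟨ρ', h1, h2⟩ := Pool.Agent.V11128.CXL.toC 8 a hρ
    refine ⟨ρ', ?_, fun Φ hc hh => ?_⟩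
    · have e3 : mean a = fun j => -((8 : ℝ) / 2 : ℂ) * ell (a j) := by
        funext j
        unfold mean
        congr 1
        push_cast
        norm_num
      rw [e3]
      exact h1
    · obtain ⟨h3, h4⟩ := hF Φ hc (fun l z => by
        have := hh l z
        rw [this, ← Real.rpow_natCast]
        norm_num)
      obtain ⟨h5, h6⟩ := h2 Φ hc
      refine ⟨h5 h3, ?_⟩
      rw [h6]
      have e4 : ((8 : ℝ) / 2) = 4 := by norm_num
      have e5 : ((4 : ℝ) ^ 2) = ((16 : ℕ) : ℝ) := by norm_num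
      rw [e4, e5] at h4
      simp_rw [Real.rpow_natCast] at h4
      rw [a4_eq]
      exact h4

end Pool.Agent.Results.MP_56b8f5_nt.EighthMomentLandscape
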